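import Pool.Agent.Helper45.CF.GoalsC
import Pool.Agent.Helper79.CF.FC

/-!
# Project CF, stage 2, packet FCX: the continuous field, with the maps `ιX`
(adapted from `Helper79/CF/FC.lean`)
-/

open scoped ComplexOrder ZeroAtInfty Topology ComplexConjugate
open TopologicalSpace Filter

namespace Pool.Agent.Helper46.CF2

open Pool.Agent.Helper34.CAR Pool.Agent.Helper39.CR Pool.Agent.Helper39.Uct
  Pool.Agent.Helper39.CarDefs Pool.Agent.Helper45.CF Pool.Agent.Helper79.CF

noncomputable section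

theorem t (hFB : S_FB) (hFIN : Pool.Agent.Helper45.CF.S_FIN) : S_FCX := by
  intro Y _ _ _ A _ κ κh hU L _ ι hι hinj hdense
  obtain ⟨𝒜, i𝒜, ιX, π, hcomp, hXinj, hXd, hV⟩ := hFB Y A κ κh hU L ι hι hinj
  -- norms
  have hn1 : ∀ x i (a : C(ℕ → Y, A i)), ‖π x (ιX i a)‖ = ‖a x‖ := by
    intro x i a
    obtain ⟨V, v1, v2, v3⟩ := hV x i
    rw [v3, iso_of (ι i) (hinj i), norm_conj V (a x) v1 v2]
  have hn2 : ∀ i (a : C(ℕ → Y, A i)), ‖ιX i a‖ = ‖a‖ := fun i a => iso_of (ιX i) (hXinj i) a
  have hap : ∀ (a : 𝒜) (ε : ℝ), 0 < ε → ∃ i, ∃ b : C(ℕ → Y, A i), ‖a - ιX i b‖ < ε := by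
    intro a ε hε
    obtain ⟨y, hy, hya⟩ := Metric.dense_iff.1 hXd a ε hε
    rw [Set.mem_iUnion] at hya
    obtain ⟨i, b, rfl⟩ := hya
    refine ⟨i, b, ?_⟩
    rw [Metric.mem_ball, dist_comm, dist_eq_norm] at hy
    exact hy
  -- scalars
  let z0 : C(ℕ → Y, ℂ) →⋆ₐ[ℂ] C(ℕ → Y, A 0) :=
    { toFun := fun f => ⟨fun x => algebraMap ℂ (A 0) (f x),
        (algebraMapCLM ℂ (A 0)).continuous.comp f.continuous⟩
      map_one' := by
        ext x
        exact map_one (algebraMap ℂ (A 0))
      map_mul' := fun f g => by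
        ext x
        exact map_mul (algebraMap ℂ (A 0)) (f x) (g x)
      map_zero' := by
        ext x
        exact map_zero (algebraMap ℂ (A 0))
      map_add' := fun f g => by
        ext x
        exact map_add (algebraMap ℂ (A 0)) (f x) (g x)
      commutes' := fun c => by
        ext x
        rfl
      map_star' := fun f => by
        ext x
        exact algebraMap_star_comm _ }
  let ζ : C(ℕ → Y, ℂ) →⋆ₐ[ℂ] 𝒜 := (ιX 0).comp z0
  let u : ∀ i, C(Fin i → Y, A i) →⋆ₙₐ[ℂ] 𝒜 := fun i =>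
    (ιX i).toNonUnitalStarAlgHom.comp (pull (A i) (res Y i))
  have hu : ∀ i (f : C(Fin i → Y, A i)), u i f = ιX i (f.comp (res Y i)) := fun i f => rfl
  have hstep : ∀ (m i n : ℕ), i + m = n → ∀ g : C(Fin n → Y, A i),
      ιX i (g.comp (res Y n)) ∈ Set.range (u n) := by
    intro m
    induction m with
    | zero =>
      intro i n hin g
      rw [Nat.add_zero] at hin
      subst hin
      exact ⟨g, rfl⟩
    | succ m ih =>
      intro i n hin g
      have hi : i < n := by omega
      let g' : C(Fin n → Y, A (i + 1)) := ⟨fun z => κh i (g z) (z ⟨i, hi⟩), by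
        have h1 : Continuous fun z : Fin n → Y => κh i (g z) := (cont' (κh i)).comp g.continuous
        have h2 : Continuous fun z : Fin n → Y => z ⟨i, hi⟩ := continuous_apply _
        exact h1.eval h2⟩
      have h3 := hcomp i (g.comp (res Y n)) (g'.comp (res Y n)) (fun x => rfl)
      rw [← h3]
      exact ih (i + 1) n (by omega) g'
  refine ⟨𝒜, i𝒜, ζ, π, u, ιX, ⟨?_, ?_, ?_, ?_⟩, ?_, ?_, ?_, hcomp, hXinj, hXd,
    fun i a x => hn1 x i a, ?_⟩
  · -- surjectivity
    intro x
    have hcl : IsClosed (Set.range (π x)) := t_RC 𝒜 L (π x).toNonUnitalStarAlgHom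
    have hsub : (⋃ i, Set.range (ι i)) ⊆ Set.range (π x) := by
      intro y hy
      rw [Set.mem_iUnion] at hy
      obtain ⟨i, b, rfl⟩ := hy
      obtain ⟨V, v1, v2, v3⟩ := hV x i
      refine ⟨ιX i (ContinuousMap.const _ (V * b * star V)), ?_⟩
      rw [v3, ContinuousMap.const_apply]
      congr 1
      calc star V * (V * b * star V) * V = (star V * V) * b * (star V * V) := by
            simp only [mul_assoc]
        _ = b := by rw [v1, one_mul, mul_one]
    rw [← Set.range_eq_univ]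
    exact hcl.closure_eq ▸ (hdense.mono hsub).closure_eq
  · -- scalars
    intro x f
    obtain ⟨V, v1, v2, v3⟩ := hV x 0
    show π x (ιX 0 (z0 f)) = _
    rw [v3]
    show ι 0 (star V * algebraMap ℂ (A 0) (f x) * V) = _
    rw [mul_assoc, Algebra.commutes, ← mul_assoc, v1, one_mul]
    exact AlgHomClass.commutes (ι 0) (f x)
  · -- continuity of the norms
    intro a
    apply continuous_of_uniform_approx_of_continuous
    intro w hw
    obtain ⟨ε, hε, hw'⟩ := Metric.mem_uniformity_dist.1 hw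
    obtain ⟨i, b, hb⟩ := hap a ε hε
    refine ⟨fun x => ‖b x‖, b.continuous.norm, fun x => ?_⟩
    apply hw'
    show dist ‖π x a‖ ‖b x‖ < ε
    rw [← hn1 x i b, Real.dist_eq]
    refine (abs_norm_sub_norm_le _ _).trans_lt ?_
    rw [← map_sub]
    exact (norm_le' (π x) _).trans_lt hb
  · -- faithfulness
    intro a ha
    rw [← norm_eq_zero]
    refine le_antisymm (le_of_forall_pos_le_add fun ε hε => ?_) (norm_nonneg _)
    obtain ⟨i, b, hb⟩ := hap a (ε / 2) (by linarith)
    have h1 : ‖b‖ ≤ ε / 2 := by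
      rw [ContinuousMap.norm_le _ (by linarith)]
      intro x
      rw [← hn1 x i b]
      have h2 : π x (ιX i b) = -(π x (a - ιX i b)) := by
        rw [map_sub, ha x, zero_sub, neg_neg]
      rw [h2, norm_neg]
      exact ((norm_le' (π x) _).trans_lt hb).le
    have h2 : ‖a‖ ≤ ‖a - ιX i b‖ + ‖ιX i b‖ := by
      calc ‖a‖ = ‖(a - ιX i b) + ιX i b‖ := by rw [sub_add_cancel]
        _ ≤ _ := norm_add_le _ _
    rw [hn2] at h2
    linarith
  · -- injectivity
    intro i f g hfg
    rw [hu, hu] at hfg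
    have h1 := hXinj i hfg
    ext z
    obtain ⟨x, rfl⟩ := res_surj Y i z
    exact DFunLike.congr_fun h1 x
  · -- compatibility
    intro i f f' hff
    rw [hu, hu]
    apply hcomp
    intro x
    exact hff (res Y (i + 1) x)
  · -- density
    rw [Metric.dense_iff]
    intro a ε hε
    obtain ⟨i, b, hb⟩ := hap a (ε / 2) (by linarith)
    obtain ⟨n, f, hf⟩ := hFIN Y (A i) b (ε / 4) (by linarith)
    -- enlarge n
    let r : C(Fin (max n i) → Y, Fin n → Y) :=
      ⟨fun z l => z (Fin.castLE (le_max_left n i) l), by fun_prop⟩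
    let g : C(Fin (max n i) → Y, A i) := f.comp r
    have hg : ∀ x : ℕ → Y, ‖b x - g (res Y (max n i) x)‖ < ε / 4 := hf
    have hmem := hstep (max n i - i) i (max n i) (by omega) g
    refine ⟨ιX i (g.comp (res Y (max n i))), ?_, Set.mem_iUnion.2 ⟨_, hmem⟩⟩
    rw [Metric.mem_ball, dist_comm, dist_eq_norm]
    have h1 : ‖ιX i b - ιX i (g.comp (res Y (max n i)))‖ ≤ ε / 4 := by
      rw [← map_sub, hn2, ContinuousMap.norm_le _ (by linarith)]
      intro x
      exact (hg x).le
    calc ‖a - ιX i (g.comp (res Y (max n i)))‖ =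
          ‖(a - ιX i b) + (ιX i b - ιX i (g.comp (res Y (max n i))))‖ := by
          rw [sub_add_sub_cancel]
      _ ≤ ‖a - ιX i b‖ + ‖ιX i b - ιX i (g.comp (res Y (max n i)))‖ := norm_add_le _ _
      _ < ε := by linarith
  · -- scalars and `ιX 0`
    intro f a ha
    show ιX 0 (z0 f) = ιX 0 a
    congr 1
    ext x
    exact (ha x).symm

end

end Pool.Agent.Helper46.CF2
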